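import Pool.Agent.Helper37.SY.Spec

/-!
# Part LOC of the swarm SY: the local inequality for the random simplex functional
-/

set_option autoImplicit false

noncomputable section

open MeasureTheory Set Filter Topology
open scoped ENNReal

namespace Helper5.SY.LOC

open Pool.Agent.Helper77.LM Helper37.SY

variable {m : ℕ}

/-- the weight of a ray -/
def Wt (m : ℕ) (b : ℝ) : ℝ := (1 - (1 / (1 + b)) ^ (m + 1)) / ((m : ℝ) + 1)

lemma Wt_nonneg (m : ℕ) {b : ℝ} (hb : 0 ≤ b) : 0 ≤ Wt m b := by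
  have h1 : 0 < 1 + b := by linarith
  have hr0 : 0 ≤ 1 / (1 + b) := by positivity
  have hr1 : 1 / (1 + b) ≤ 1 := by rw [div_le_one h1]; linarith
  have h2 : (1 / (1 + b)) ^ (m + 1) ≤ 1 := pow_le_one₀ hr0 hr1
  unfold Wt
  apply div_nonneg (by linarith) (by positivity)

lemma Wt_le (m : ℕ) {b : ℝ} (hb : 0 ≤ b) : Wt m b ≤ b := by
  have h1 : 0 < 1 + b := by linarith
  have hr0 : 0 < 1 / (1 + b) := by positivity
  have hm : (0 : ℝ) < (m : ℝ) + 1 := by positivity
  have h2 := one_add_mul_le_pow (a := 1 / (1 + b) - 1) (by linarith) (m + 1)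
  have e1 : 1 + (1 / (1 + b) - 1) = 1 / (1 + b) := by ring
  rw [e1] at h2
  push_cast at h2
  have e2 : 1 - 1 / (1 + b) = b / (1 + b) := by field_simp; ring
  have e3 : b / (1 + b) ≤ b := by
    rw [div_le_iff₀ h1]; nlinarith
  unfold Wt
  rw [div_le_iff₀ hm]
  have h4 : 1 - (1 / (1 + b)) ^ (m + 1) ≤ ((m : ℝ) + 1) * (1 - 1 / (1 + b)) := by linarith
  rw [e2] at h4
  nlinarith

lemma Wt_ge (m : ℕ) {b e : ℝ} (hb : 0 ≤ b) (hbe : b ≤ e) :
    b - Wt m b ≤ ((m : ℝ) + 1) * e * b := by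
  have h1 : 0 < 1 + b := by linarith
  have hr0 : 0 < 1 / (1 + b) := by positivity
  have hm : (0 : ℝ) < (m : ℝ) + 1 := by positivity
  have h2 := one_add_mul_le_pow (a := b) (by linarith) (m + 1)
  have h3 := one_add_mul_le_pow (a := 1 / (1 + b) - 1) (by linarith) (m + 1)
  have e1 : 1 + (1 / (1 + b) - 1) = 1 / (1 + b) := by ring
  rw [e1] at h3
  push_cast at h2 h3
  have e2 : 1 - 1 / (1 + b) = b / (1 + b) := by field_simp; ring
  have e3 : b / (1 + b) ≤ b := by
    rw [div_le_iff₀ h1]; nlinarith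
  set q : ℝ := (1 / (1 + b)) ^ (m + 1) with hq
  have hq0 : 0 < q := by positivity
  have hqq : q * (1 + b) ^ (m + 1) = 1 := by
    rw [hq, ← mul_pow, one_div, inv_mul_cancel₀ h1.ne', one_pow]
  -- `1 - q ≥ (m+1) b q`
  have h4 : q * (1 + ((m : ℝ) + 1) * b) ≤ 1 :=
    (mul_le_mul_of_nonneg_left h2 hq0.le).trans hqq.le
  have h5 : b * q ≤ Wt m b := by
    unfold Wt
    rw [le_div_iff₀ hm]
    nlinarith
  have h6 : 1 - ((m : ℝ) + 1) * e ≤ q := by
    have h7 : ((m : ℝ) + 1) * (b / (1 + b)) ≤ ((m : ℝ) + 1) * e :=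
      mul_le_mul_of_nonneg_left (e3.trans hbe) hm.le
    rw [← e2] at h7
    linarith
  have h8 := mul_le_mul_of_nonneg_left h6 hb
  linarith

lemma lint_ray (m : ℕ) {γ : ℝ} (hγ : 1 ≤ γ) :
    ∫⁻ s in Ioc (1 / γ) 1, ENNReal.ofReal (s ^ m) = ENNReal.ofReal (Wt m (γ - 1)) := by
  have h0 : 0 < γ := by linarith
  have h1 : 1 / γ ≤ 1 := by rw [div_le_one h0]; exact hγ
  rw [← ofReal_integral_eq_lintegral_ofReal]
  · congr 1
    rw [← intervalIntegral.integral_of_le h1, integral_pow, Wt]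
    have : 1 + (γ - 1) = γ := by ring
    rw [this, one_pow]
  · exact (continuous_pow m).integrableOn_Ioc
  · refine (ae_restrict_iff' measurableSet_Ioc).2 (Filter.Eventually.of_forall ?_)
    intro s hs
    exact pow_nonneg (le_of_lt (lt_trans (by positivity) hs.1)) m

lemma measurable_Wt (m : ℕ) : Measurable (Wt m) := by
  unfold Wt
  fun_prop

/-- one facet, real inequality -/
lemma facet_real {C D c1 L0 e : ℝ} (hC : 0 < C) (hD : 0 < D) (hc1 : 0 < c1) (he0 : 0 ≤ e)
    (heD : (((m : ℝ) + 1) * D + C) * e ≤ c1 / 2)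
    {f : (Fin (m + 1) → ℝ) → ℝ} (hfm : Measurable f)
    (hN : ∀ x ∈ Dl (m + 1), |f x - L0| ≤ D)
    {β : (Fin (m + 1) → ℝ) → ℝ} (hβ : Gg m β)
    (hkl : (L0 + c1) * A m β ≤ A m (fun l => f l * β l))
    (hβe : ∀ l ∈ stdSimplex ℝ (Fin (m + 1)), β l ≤ e) :
    (L0 + c1 / 2) * ∫ w in Dl m, Wt m (β (bary w)) ≤
      ∫ w in Dl m, Wt m (β (bary w)) * (f (bary w) - C * e) := by
  have mW : Measurable fun l => Wt m (β l) := (measurable_Wt m).comp hβ.meas
  have bW : ∀ l ∈ stdSimplex ℝ (Fin (m + 1)), |Wt m (β l)| ≤ e := by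
    intro l hl
    rw [abs_of_nonneg (Wt_nonneg m (hβ.nonneg l hl))]
    exact (Wt_le m (hβ.nonneg l hl)).trans (hβe l hl)
  have h1 : ∀ l ∈ stdSimplex ℝ (Fin (m + 1)), |f l| ≤ |L0| + D := by
    intro l hl
    have h := hN l (std_sub_Dl hl)
    have : f l = (f l - L0) + L0 := by ring
    rw [this]
    refine (abs_add_le _ _).trans ?_
    linarith
  have iW : IntegrableOn (fun w => Wt m (β (bary w))) (Dl m) :=
    integrableOn_of_bd (f := fun l => Wt m (β l)) mW ⟨e, bW⟩
  have iβ : IntegrableOn (fun w => β (bary w)) (Dl m) := integrableOn_of_bd hβ.meas hβ.bdd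
  have iNβ : IntegrableOn (fun w => f (bary w) * β (bary w)) (Dl m) := by
    refine integrableOn_of_bd (f := fun l => f l * β l) (hfm.mul hβ.meas)
      ⟨(|L0| + D) * e, fun l hl => ?_⟩
    rw [abs_mul]
    refine mul_le_mul (h1 l hl) ?_ (abs_nonneg _) ((abs_nonneg _).trans (h1 l hl))
    rw [abs_of_nonneg (hβ.nonneg l hl)]
    exact hβe l hl
  have iWN : IntegrableOn (fun w => Wt m (β (bary w)) * (f (bary w) - C * e)) (Dl m) := by
    refine integrableOn_of_bd (f := fun l => Wt m (β l) * (f l - C * e))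
      (mW.mul (hfm.sub_const _)) ⟨e * ((|L0| + D) + |C * e|), fun l hl => ?_⟩
    rw [abs_mul]
    refine mul_le_mul (bW l hl) ?_ (abs_nonneg _) he0
    exact (abs_sub _ _).trans (add_le_add (h1 l hl) le_rfl)
  rw [← integral_const_mul]
  -- the pointwise inequality
  have hpt : ∀ w ∈ Dl m, (L0 + c1 / 2) * Wt m (β (bary w)) +
      (f (bary w) * β (bary w) - (L0 + c1) * β (bary w)) ≤
      Wt m (β (bary w)) * (f (bary w) - C * e) := by
    intro w hw
    have hl := bary_mem_std hw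
    have h0 := hβ.nonneg _ hl
    have he := hβe _ hl
    set b : ℝ := β (bary w) with hb
    set W0 : ℝ := Wt m b with hW
    set N : ℝ := f (bary w) with hNN
    have hW0 : 0 ≤ W0 := Wt_nonneg m h0
    have hWb : W0 ≤ b := Wt_le m h0
    have hWg : b - W0 ≤ ((m : ℝ) + 1) * e * b := Wt_ge m h0 he
    have hNa := hN _ (std_sub_Dl hl)
    rw [abs_le] at hNa
    have hNup : N - L0 ≤ D := hNa.2
    have g1 : (b - W0) * (N - L0) ≤ (((m : ℝ) + 1) * e * b) * D := by
      refine (mul_le_mul_of_nonneg_left hNup (by linarith)).trans ?_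
      exact mul_le_mul_of_nonneg_right hWg hD.le
    have g2 : W0 * (C * e) ≤ b * (C * e) := mul_le_mul_of_nonneg_right hWb (by positivity)
    have g3 : W0 * (c1 / 2) ≤ b * (c1 / 2) := mul_le_mul_of_nonneg_right hWb (by positivity)
    have g4 : (((m : ℝ) + 1) * D + C) * e * b ≤ c1 / 2 * b :=
      mul_le_mul_of_nonneg_right heD h0
    nlinarith [g1, g2, g3, g4]
  have iS : IntegrableOn (fun w => f (bary w) * β (bary w) - (L0 + c1) * β (bary w)) (Dl m) :=
    iNβ.sub (iβ.const_mul _)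
  have hI : ∫ w in Dl m, ((L0 + c1 / 2) * Wt m (β (bary w)) +
      (f (bary w) * β (bary w) - (L0 + c1) * β (bary w))) ≤
      ∫ w in Dl m, Wt m (β (bary w)) * (f (bary w) - C * e) :=
    setIntegral_mono_on ((iW.const_mul _).add iS) iWN isClosed_Dl.measurableSet hpt
  rw [integral_add (iW.const_mul _) iS, integral_sub iNβ (iβ.const_mul _),
    integral_const_mul (L0 + c1)] at hI
  have e1 : ∫ w in Dl m, β (bary w) = A m β := rfl
  have e2 : ∫ w in Dl m, f (bary w) * β (bary w) = A m (fun l => f l * β l) := rfl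
  rw [e1, e2] at hI
  linarith

/-- the local inequality for a general density -/
theorem gen_loc {f : (Fin (m + 1) → ℝ) → ℝ} (hfm : Measurable f) (hf0 : ∀ x, 0 ≤ f x)
    (hfs : ∀ (σ : Equiv.Perm (Fin (m + 2))) x, f (Tl σ x) = f x)
    {L0 C D c1 : ℝ} (hL0 : 0 ≤ L0) (hC : 0 < C) (hD : 0 < D) (hc1 : 0 < c1)
    (hN : ∀ x ∈ Dl (m + 1), |f x - L0| ≤ D)
    (hray : ∀ x ∈ Dl (m + 1), ∀ s : ℝ, 0 ≤ s → s ≤ 1 → f x - C * (1 - s) ≤ f (s • x))
    (hkl : ∀ b, Gg m b → (L0 + c1) * A m b ≤ A m (fun l => f l * b l)) :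
    ∃ η0 : ℝ, 0 < η0 ∧ η0 < 1 ∧ ∀ K : Set (Fin (m + 1) → ℝ), Near m η0 K →
      (L0 + c1 / 2) * (volume (Dl (m + 1) \ K)).toReal ≤ ∫ x in Dl (m + 1) \ K, f x := by
  have hD0 : 0 < ((m : ℝ) + 1) * D + C := by positivity
  have hη1 : 0 < min (1 / 2) (c1 / (4 * (((m : ℝ) + 1) * D + C))) := by
    refine lt_min (by norm_num) (by positivity)
  have hη2 : min (1 / 2) (c1 / (4 * (((m : ℝ) + 1) * D + C))) ≤ 1 / 2 := min_le_left _ _
  have hη3 : min (1 / 2) (c1 / (4 * (((m : ℝ) + 1) * D + C))) ≤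
    c1 / (4 * (((m : ℝ) + 1) * D + C)) := min_le_right _ _
  set η0 : ℝ := min (1 / 2) (c1 / (4 * (((m : ℝ) + 1) * D + C))) with hη0
  refine ⟨η0, hη1, by linarith, ?_⟩
  intro K hK
  obtain ⟨e, he⟩ : ∃ e : ℝ, e = η0 / (1 - η0) := ⟨_, rfl⟩
  have h1η : 0 < 1 - η0 := by linarith
  have he0 : 0 ≤ e := by rw [he]; positivity
  have he2 : e ≤ 2 * η0 := by
    rw [he, div_le_iff₀ h1η]; nlinarith
  have heD : (((m : ℝ) + 1) * D + C) * e ≤ c1 / 2 := by
    rw [le_div_iff₀ (by positivity)] at hη3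
    have := mul_le_mul_of_nonneg_left he2 hD0.le
    linarith
  have hLp : 0 ≤ L0 + c1 / 2 := by positivity
  -- the key inequality
  have key : ENNReal.ofReal (L0 + c1 / 2) * volume (Dl (m + 1) \ K) ≤
      ∫⁻ x in Dl (m + 1) \ K, ENNReal.ofReal (f x) := by
    have hvol : volume (Dl (m + 1) \ K) = ∫⁻ _x in Dl (m + 1) \ K, 1 := by
      rw [setLIntegral_const, one_mul]
    rw [hvol, outside_formula hη1 (by linarith) hK (fun _ => 1) measurable_const (fun _ _ => rfl),
      outside_formula hη1 (by linarith) hK (fun x => ENNReal.ofReal (f x))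
        hfm.ennreal_ofReal (fun σ x => by rw [hfs]), Finset.mul_sum]
    refine Finset.sum_le_sum fun i _ => ?_
    rw [← mul_assoc, mul_comm (ENNReal.ofReal (L0 + c1 / 2)), mul_assoc]
    refine mul_le_mul_right ?_ _
    set T : (Fin (m + 1) → ℝ) →ₗ[ℝ] (Fin (m + 1) → ℝ) := Tl (Equiv.swap 0 i) with hT
    set Ki : Set (Fin (m + 1) → ℝ) := (T : (Fin (m + 1) → ℝ) → (Fin (m + 1) → ℝ)) ⁻¹' K with hKi
    have hTc : Continuous (T : (Fin (m + 1) → ℝ) → (Fin (m + 1) → ℝ)) :=
      LinearMap.continuous_of_finiteDimensional _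
    obtain ⟨hGg, hupp, hlow, hsm⟩ := gauge_facts hη1 (by linarith) (K := Ki)
      (hK.conv.linear_preimage T)
      (hK.closed.preimage hTc)
      (fun x hx => (Tl_mem (Equiv.swap 0 i)).1 (hK.sub hx))
      (fun x hx => by
        change T ((1 - η0) • x) ∈ K
        rw [map_smul]
        exact hK.big _ ((Tl_mem (Equiv.swap 0 i)).2 hx))
      (hK.cen i)
    have hβe : ∀ l ∈ stdSimplex ℝ (Fin (m + 1)), gauge Ki l - 1 ≤ e := by
      intro l hl
      have h1 := hupp l hl
      have h2 : 1 / (1 - η0) = 1 + e := by rw [he]; field_simp; ring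
      linarith
    have hreal := facet_real hC hD hc1 he0 heD hfm hN hGg (hkl _ hGg) hβe
    have hbf : ∀ l ∈ stdSimplex ℝ (Fin (m + 1)), |f l| ≤ |L0| + D := by
      intro l hl
      have h := hN l (std_sub_Dl hl)
      have h' : f l = (f l - L0) + L0 := by ring
      rw [h']
      refine (abs_add_le _ _).trans ?_
      linarith
    -- the volume part
    have h1 : ∫⁻ w in Dl m, ∫⁻ s in Ioc (1 / gauge Ki (bary w)) 1, ENNReal.ofReal (s ^ m) * 1
        = ENNReal.ofReal (∫ w in Dl m, Wt m (gauge Ki (bary w) - 1)) := by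
      rw [ofReal_integral_eq_lintegral_ofReal]
      · refine setLIntegral_congr_fun isClosed_Dl.measurableSet fun w hw => ?_
        simp only [mul_one]
        exact lint_ray m (hlow _ (bary_mem_std hw))
      · refine integrableOn_of_bd (f := fun l => Wt m (gauge Ki l - 1))
          ((measurable_Wt m).comp hGg.meas) ⟨e, fun l hl => ?_⟩
        rw [abs_of_nonneg (Wt_nonneg m (hGg.nonneg l hl))]
        exact (Wt_le m (hGg.nonneg l hl)).trans (hβe l hl)
      · refine (ae_restrict_iff' isClosed_Dl.measurableSet).2 (Filter.Eventually.of_forall ?_)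
        intro w hw
        exact Wt_nonneg m (hGg.nonneg _ (bary_mem_std hw))
    rw [h1, ← ENNReal.ofReal_mul hLp]
    refine (ENNReal.ofReal_le_ofReal hreal).trans ?_
    refine (ofReal_integral_le ?_).trans ?_
    · refine integrableOn_of_bd (f := fun l => Wt m (gauge Ki l - 1) * (f l - C * e))
        (((measurable_Wt m).comp hGg.meas).mul (hfm.sub_const _))
        ⟨e * ((|L0| + D) + |C * e|), fun l hl => ?_⟩
      rw [abs_mul]
      refine mul_le_mul ?_ ?_ (abs_nonneg _) he0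
      · rw [abs_of_nonneg (Wt_nonneg m (hGg.nonneg l hl))]
        exact (Wt_le m (hGg.nonneg l hl)).trans (hβe l hl)
      · exact (abs_sub _ _).trans (add_le_add (hbf l hl) le_rfl)
    refine setLIntegral_mono' isClosed_Dl.measurableSet fun w hw => ?_
    have hl := bary_mem_std hw
    have hg1 := hlow _ hl
    have hg0 : 0 < gauge Ki (bary w) := by linarith
    have hβ0 : 0 ≤ gauge Ki (bary w) - 1 := by linarith
    rw [ENNReal.ofReal_mul (Wt_nonneg m hβ0), ← lint_ray m hg1, mul_comm,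
      ← lintegral_const_mul' _ _ ENNReal.ofReal_ne_top]
    refine setLIntegral_mono' measurableSet_Ioc fun s hs => ?_
    rw [mul_comm]
    refine mul_le_mul_right (ENNReal.ofReal_le_ofReal ?_) _
    have hs0 : 0 < s := lt_trans (by positivity) hs.1
    have h2 := hray _ (std_sub_Dl hl) s hs0.le hs.2
    have h3 : 1 - s ≤ e := by
      have h4 : 1 / gauge Ki (bary w) < s := hs.1
      have h5 : 1 - η0 ≤ 1 / gauge Ki (bary w) := by
        have := hupp _ hl
        rw [le_div_iff₀ h1η] at this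
        rw [le_div_iff₀ hg0]
        linarith
      have h6 : η0 ≤ e := by
        rw [he, le_div_iff₀ h1η]; nlinarith
      linarith
    have h7 : C * (1 - s) ≤ C * e := mul_le_mul_of_nonneg_left h3 hC.le
    linarith
  -- conversion
  have hNle : ∀ x ∈ Dl (m + 1) \ K, f x ≤ L0 + D := by
    intro x hx
    have := (abs_le.1 (hN x hx.1)).2
    linarith
  have hmS : MeasurableSet (Dl (m + 1) \ K) :=
    isClosed_Dl.measurableSet.diff hK.closed.measurableSet
  have hvf : volume (Dl (m + 1) \ K) ≠ ∞ :=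
    ((measure_mono Set.sdiff_subset).trans_lt isCompact_Dl.measure_lt_top).ne
  have hfin : ∫⁻ x in Dl (m + 1) \ K, ENNReal.ofReal (f x) ≠ ∞ := by
    refine ne_top_of_le_ne_top ?_ (setLIntegral_mono' hmS fun x hx =>
      ENNReal.ofReal_le_ofReal (hNle x hx))
    rw [setLIntegral_const]
    exact ENNReal.mul_ne_top ENNReal.ofReal_ne_top hvf
  rw [integral_eq_lintegral_of_nonneg_ae (Filter.Eventually.of_forall fun x => hf0 x)
    hfm.aestronglyMeasurable]
  have h9 := ENNReal.toReal_mono hfin key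
  rw [ENNReal.toReal_mul, ENNReal.toReal_ofReal hLp] at h9
  exact h9

theorem main (hFCV : S_FCV) (hAVG : S_AVG) (hSTR : S_STR) (hVTX : S_VTX)
    (hCOR : Helper63.LP.S_COR) : S_LOC := by
  intro k q hq
  obtain ⟨hconv, hcont, hF0, hsym, hint, hG⟩ := hFCV (k + 2) q hq
  have havg := hAVG (k + 1) q hq
  have hvtx := hVTX (k + 1) q (by omega) hq
  have hV := V_pos (k + 2)
  have hV1 := V_pos (k + 1)
  set f : (Fin (k + 2) → ℝ) → ℝ := F q with hf
  obtain ⟨a, ha⟩ : ∃ a : ℝ, a = Gq q (Dl (k + 2)) / V (k + 2) := ⟨_, rfl⟩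
  have ha0 : 0 < a := by rw [ha]; positivity
  -- bounds
  obtain ⟨M1, hM1⟩ := isCompact_Dl (n := k + 2).exists_bound_of_continuousOn hcont.continuousOn
  have hc2 : Continuous fun x : Fin (k + 2) → ℝ => f ((2 : ℝ) • x) :=
    hcont.comp (continuous_const_smul _)
  obtain ⟨M2, hM2⟩ := isCompact_Dl (n := k + 2).exists_bound_of_continuousOn hc2.continuousOn
  have hCls : Cls (k + 1) f := by
    refine ⟨⟨hcont.measurable, fun σ l => ?_, M1, fun l hl => ?_⟩, ?_⟩
    · rw [perm_eq_Tl, hsym]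
    · rw [← Real.norm_eq_abs]
      exact hM1 l (std_sub_Dl hl)
    · exact hconv.subset (Set.subset_univ _) (convex_stdSimplex ℝ _)
  have hstr := hSTR k f hCls hcont hvtx
  obtain ⟨c1, hc1⟩ : ∃ c1 : ℝ, c1 = (((k : ℝ) + 2) / ((k : ℝ) + 1) *
    A (k + 1) (fun l => f l * Helper63.LP.sg (k + 1) l) - A (k + 1) f) / V (k + 1) := ⟨_, rfl⟩
  have hc10 : 0 < c1 := by
    rw [hc1]; exact div_pos (by linarith) hV1
  obtain ⟨L0, hL0⟩ : ∃ L0 : ℝ, L0 = (1 + q / ((k : ℝ) + 3)) * a := ⟨_, rfl⟩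
  have hL00 : 0 ≤ L0 := by
    rw [hL0]
    have : 0 ≤ q / ((k : ℝ) + 3) := by positivity
    positivity
  have havg' : L0 ≤ A (k + 1) f / V (k + 1) := by
    rw [hL0, ha]
    have e : ((k + 1 : ℕ) : ℝ) + 2 = (k : ℝ) + 3 := by push_cast; ring
    rw [e] at havg
    exact havg
  have hN : ∀ x ∈ Dl (k + 1 + 1), |f x - L0| ≤ |M1| + |L0| + 1 := by
    intro x hx
    have h1 := hM1 x hx
    rw [Real.norm_eq_abs] at h1
    have h2 := abs_sub (f x) L0
    have h3 := le_abs_self M1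
    linarith
  have hray : ∀ x ∈ Dl (k + 1 + 1), ∀ s : ℝ, 0 ≤ s → s ≤ 1 →
      f x - (|M2| + 1) * (1 - s) ≤ f (s • x) := by
    intro x hx s hs0 hs1
    have hs2 : 0 < 2 - s := by linarith
    have p1 : 0 ≤ 1 / (2 - s) := by positivity
    have p2 : 0 ≤ (1 - s) / (2 - s) := div_nonneg (by linarith) hs2.le
    have p3 : 1 / (2 - s) + (1 - s) / (2 - s) = 1 := by field_simp; ring
    have h1 := hconv.2 (Set.mem_univ (s • x)) (Set.mem_univ ((2 : ℝ) • x)) p1 p2 p3
    have e1 : (1 / (2 - s)) • (s • x) + ((1 - s) / (2 - s)) • ((2 : ℝ) • x) = x := by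
      rw [smul_smul, smul_smul, ← add_smul]
      have : 1 / (2 - s) * s + (1 - s) / (2 - s) * 2 = 1 := by field_simp; ring
      rw [this, one_smul]
    rw [e1] at h1
    simp only [smul_eq_mul] at h1
    have h2 : 1 / (2 - s) * f (s • x) ≤ f (s • x) := by
      have h3 : 1 / (2 - s) ≤ 1 := by rw [div_le_one hs2]; linarith
      have h4 := mul_le_mul_of_nonneg_right h3 (hF0 (s • x))
      rw [one_mul] at h4
      exact h4
    have h5 : (1 - s) / (2 - s) * f ((2 : ℝ) • x) ≤ (1 - s) * (|M2| + 1) := by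
      have h6 : (1 - s) / (2 - s) ≤ 1 - s := div_le_self (by linarith) (by linarith)
      have h7 := hM2 x hx
      rw [Real.norm_eq_abs] at h7
      have h8 : f ((2 : ℝ) • x) ≤ |M2| + 1 := by
        have := le_abs_self M2
        have := le_abs_self (f ((2 : ℝ) • x))
        linarith
      exact mul_le_mul h6 h8 (hF0 _) (by linarith)
    linarith
  have hkl : ∀ b, Gg (k + 1) b → (L0 + c1) * A (k + 1) b ≤ A (k + 1) (fun l => f l * b l) := by
    intro b hb
    have h1 := hCOR k f b hCls (fun l _ => hF0 l) hb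
    have hbn : 0 ≤ A (k + 1) b := by
      refine setIntegral_nonneg isClosed_Dl.measurableSet fun w hw => ?_
      exact hb.nonneg _ (bary_mem_std hw)
    have h2 : (A (k + 1) f / V (k + 1) + c1) * V (k + 1) = ((k : ℝ) + 2) / ((k : ℝ) + 1) *
        A (k + 1) (fun l => f l * Helper63.LP.sg (k + 1) l) := by
      rw [hc1]; field_simp; ring
    have h3 : (L0 + c1) * A (k + 1) b ≤ (A (k + 1) f / V (k + 1) + c1) * A (k + 1) b :=
      mul_le_mul_of_nonneg_right (by linarith) hbn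
    refine h3.trans (le_of_mul_le_mul_left ?_ hV1)
    calc V (k + 1) * ((A (k + 1) f / V (k + 1) + c1) * A (k + 1) b)
        = ((A (k + 1) f / V (k + 1) + c1) * V (k + 1)) * A (k + 1) b := by ring
      _ ≤ _ := by rw [h2]; exact h1
  obtain ⟨η0, h1, h2, h3⟩ := gen_loc (m := k + 1) (f := f) hcont.measurable hF0 hsym hL00
    (by positivity : 0 < |M2| + 1) (by positivity : 0 < |M1| + |L0| + 1) hc10 hN hray hkl
  refine ⟨η0, c1 / (2 * a), h1, h2, by positivity, fun K hK => ?_⟩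
  have h4 := h3 K hK
  rw [← ha]
  have e : (1 + q / ((k : ℝ) + 3) + c1 / (2 * a)) * a = L0 + c1 / 2 := by
    rw [hL0]; field_simp
  rw [e]
  exact h4

end Helper5.SY.LOC

end
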